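import Pool.Agent.H200P.Stm2
import Pool.Agent.Q111.WR.LeafC

/-! # Job PK-LEAF of helper200's project: the corank of a leaf, with large multiplicities. -/

set_option autoImplicit false

namespace Pool.Agent.Q285.PK

open Finset Pool.Agent.TH176.Nag Pool.Agent.TH603.Sur Pool.Agent.TH2.NU Pool.Agent.TH641.UM
open Pool.Agent.Y205.FW Pool.Agent.Y205.MD Pool.Agent.H200W Pool.Agent.H200P
open Pool.Agent.Q111.WR (list_cast list_mul condM_lf crkM_zero crkM_sur crkM_mono HX_mono list_sum_le)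

/-- twice the number of conditions -/
theorem two_condM (K : Multiset ℕ) :
    2 * (TH2.NU.condM K : ℝ) = (K.map fun m : ℕ => (m : ℝ) * (m + 1)).sum := by
  induction K using Multiset.induction_on with
  | empty => simp [TH2.NU.condM]
  | cons m K ih =>
    rw [Multiset.map_cons, Multiset.sum_cons, ← ih]
    have h1 : TH2.NU.condM (m ::ₘ K) = (m + 1).choose 2 + TH2.NU.condM K := by
      unfold TH2.NU.condM
      rw [Multiset.map_cons, Multiset.sum_cons]
    rw [h1, Nat.cast_add, mul_add, choose_real]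
    ring

theorem card_zero_real (n : ℕ) : 2 * ((HX 0 0 0 n).card : ℝ) = ((n : ℝ) + 1) * (n + 2) := by
  have h := p_card (M1 := 0) (M2 := 0) (M3 := 0) (d := n) le_rfl le_rfl (by omega)
  have h' : ((2 * (HX 0 0 0 n).card + (0 * (0 + 1) + 0 * (0 + 1) + 0 * (0 + 1)) : ℕ) : ℝ)
      = (((n + 1) * (n + 2) : ℕ) : ℝ) := by rw [h]
  push_cast at h'
  linarith

theorem sum_sq_nonneg (K : Multiset ℕ) (c : ℝ) :
    0 ≤ (K.map fun m : ℕ => ((m : ℝ) + c) ^ 2).sum := by
  refine Multiset.sum_nonneg fun y hy => ?_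
  obtain ⟨x, _, rfl⟩ := Multiset.mem_map.1 hy
  positivity

/-- the packing inequality makes the degree large -/
theorem deg_large {G : ℝ} {d m1 : ℕ} {K : Multiset ℕ} (hd : 1 ≤ d)
    (hp : (K.map fun m : ℕ => ((m : ℝ) + 16 * G) ^ 2).sum + (7 * m1 + 116 * G) * d ≤ (d : ℝ) ^ 2) :
    116 * G ≤ d := by
  have h0 := sum_sq_nonneg K (16 * G)
  have h1 : (1 : ℝ) ≤ d := by exact_mod_cast hd
  have h2 : (0 : ℝ) ≤ m1 := Nat.cast_nonneg _
  have h3 : 116 * G * (d : ℝ) ≤ d * d := by nlinarith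
  exact le_of_mul_le_mul_right h3 (by linarith)

theorem leafK : S_LeafK := by
  intro hW h G η d m1 K V N a R hh hη hη1 hG hd hK hpack hvol hV hR hbig
  obtain ⟨L, hL, hsum, hS, hE⟩ := p_units V N a R (by linarith) hV hR hbig
  set M := lf V N a R with hM
  have hsum' : (L.map fun x => x.1).sum = M := hsum
  set A : ℝ := 2 * (TH2.NU.condM M : ℝ) with hA
  set Z : ℝ := E0 V N a R with hZ
  have hZ0 : 0 ≤ Z := by
    rw [hZ]; unfold E0
    have : 0 ≤ (R.map fun x => (x.1 : ℝ) * ((x.2 : ℝ) + 1)).sum := List.sum_nonneg (by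
      intro y hy
      obtain ⟨x, _, rfl⟩ := List.mem_map.mp hy
      positivity)
    have h2 : 0 ≤ ∑ v ∈ V, (N v : ℝ) * ((a v : ℝ) + 1) :=
      Finset.sum_nonneg fun v _ => by positivity
    linarith
  have hAeq : A = ∑ v ∈ V, (N v : ℝ) * (a v * ((a v : ℝ) + 1)) +
      (R.map fun x => (x.1 : ℝ) * (x.2 * ((x.2 : ℝ) + 1))).sum := by
    rw [hA, hM, condM_lf, Nat.cast_add, list_cast, Nat.cast_sum, mul_add, Finset.mul_sum,
      ← list_mul]
    congr 1
    · refine Finset.sum_congr rfl fun v _ => ?_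
      rw [Nat.cast_mul, choose_real]; ring
    · refine congrArg List.sum (List.map_congr_left fun x _ => ?_)
      rw [Nat.cast_mul, choose_real]; ring
  have list_add : ∀ (f g : ℕ × ℕ → ℝ), (R.map fun x => f x + g x).sum =
      (R.map f).sum + (R.map g).sum := by
    intro f g
    induction R with
    | nil => simp
    | cons x R ih =>
      clear * -
      have : ∀ R : List (ℕ × ℕ), (R.map fun x => f x + g x).sum =
          (R.map f).sum + (R.map g).sum := by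
        intro R
        induction R with
        | nil => simp
        | cons x R ih => simp only [List.map_cons, List.sum_cons]; rw [ih]; ring
      exact this _
  have hSle : (L.map fun x => x.2.1).sum ≤ A + Z := by
    refine hS.trans ?_
    rw [hAeq, hZ]
    unfold E0
    have e1 : ∑ v ∈ V, ((N v : ℝ) * ((a v : ℝ) + 1) ^ 2 + (N v : ℝ) * ((a v : ℝ) + 1) / 2) =
        ∑ v ∈ V, (N v : ℝ) * (a v * ((a v : ℝ) + 1)) +
          3 / 2 * ∑ v ∈ V, (N v : ℝ) * ((a v : ℝ) + 1) := by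
      rw [Finset.mul_sum, ← Finset.sum_add_distrib]
      exact Finset.sum_congr rfl fun v _ => by ring
    have e2 : (R.map fun x => (x.1 : ℝ) * ((x.2 : ℝ) + 1) ^ 2).sum =
        (R.map fun x => (x.1 : ℝ) * (x.2 * ((x.2 : ℝ) + 1))).sum +
          (R.map fun x => (x.1 : ℝ) * ((x.2 : ℝ) + 1)).sum := by
      rw [← list_add]
      exact congrArg List.sum (List.map_congr_left fun x _ => by ring)
    rw [e1, e2]
    linarith
  have hEge : A - Z ≤ (L.map fun x => x.2.2).sum := by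
    refine le_trans ?_ hE
    rw [hAeq, hZ]
    unfold E0
    have e1 : ∑ v ∈ V, (N v : ℝ) * (a v * ((a v : ℝ) + 1)) -
        3 / 2 * ∑ v ∈ V, (N v : ℝ) * ((a v : ℝ) + 1) ≤
        ∑ v ∈ V, ((N v : ℝ) * (a v : ℝ) ^ 2 - (N v : ℝ) * ((a v : ℝ) + 1) / 2) := by
      rw [Finset.mul_sum, ← Finset.sum_sub_distrib]
      refine Finset.sum_le_sum fun v _ => ?_
      have : 0 ≤ (N v : ℝ) := by positivity
      nlinarith
    have e2 : (R.map fun x => (x.1 : ℝ) * (x.2 * ((x.2 : ℝ) + 1))).sum ≤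
        (R.map fun x => (x.1 : ℝ) * (x.2 : ℝ) ^ 2).sum +
          (R.map fun x => (x.1 : ℝ) * ((x.2 : ℝ) + 1)).sum := by
      rw [← list_add]
      refine list_sum_le R _ _ fun x _ => ?_
      have : 0 ≤ (x.1 : ℝ) := by positivity
      nlinarith
    linarith
  -- the two tools
  have hh0 : 0 < h := by linarith
  have hA0 : 0 ≤ A := by rw [hA]; positivity
  have hG0 : 32 * h ≤ G := by
    have h0 : 0 ≤ G := by
      by_contra hneg
      push Not at hneg
      have : η * G ≤ 0 := (mul_neg_of_pos_of_neg hη hneg).le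
      linarith
    have : η * G ≤ 1 * G := mul_le_mul_of_nonneg_right hη1 h0
    linarith
  have hGpos : 0 < G := by linarith
  have hdG : 116 * G ≤ d := deg_large hd hpack
  obtain ⟨X, hX⟩ : ∃ X : ℕ → ℝ, X = fun n => 2 * ((HX 0 0 0 n).card : ℝ) - 2 * (TH2.NU.condM K : ℝ) :=
    ⟨_, rfl⟩
  obtain ⟨Lm, hLm⟩ : ∃ Lm : ℕ → ℝ, Lm = fun n : ℕ => 7 * (n : ℝ) ^ 2 / (16 * G) := ⟨_, rfl⟩
  have toolE : ∀ n : ℕ, d ≤ n → X n + Lm n ≤ A - Z →
      EmpM (K + M) (↑(HX 0 0 0 n) : Set (ℤ × ℤ)) := by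
    intro n hn hc
    have hw := (hW (h := h) (G := G) K (by linarith) hG0 hd hK hpack n hn).2
    have := hw (L.map fun x => (x.1, x.2.2)) ?_ ?_
    · rw [List.map_map] at this
      have e : (Prod.fst ∘ fun x : Multiset ℕ × ℝ × ℝ => (x.1, x.2.2)) = fun x => x.1 := rfl
      rw [e, hsum'] at this
      exact this
    · intro y hy
      obtain ⟨x, hx, rfl⟩ := List.mem_map.mp hy
      obtain ⟨-, h2, -, -, h5, h6⟩ := hL x hx
      exact ⟨h2, h5, h6⟩
    · rw [List.map_map]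
      rw [hX, hLm] at hc
      exact hc.trans hEge
  have toolS : ∀ n : ℕ, d ≤ n → A + Z ≤ X n - Lm n →
      SurM (K + M) (↑(HX 0 0 0 n) : Set (ℤ × ℤ)) := by
    intro n hn hc
    have hw := (hW (h := h) (G := G) K (by linarith) hG0 hd hK hpack n hn).1.2
    have := hw (L.map fun x => (x.1, x.2.1)) ?_ ?_
    · rw [List.map_map] at this
      have e : (Prod.fst ∘ fun x : Multiset ℕ × ℝ × ℝ => (x.1, x.2.1)) = fun x => x.1 := rfl
      rw [e, hsum'] at this
      exact this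
    · intro y hy
      obtain ⟨x, hx, rfl⟩ := List.mem_map.mp hy
      obtain ⟨h2, -, h5, h6, -, -⟩ := hL x hx
      exact ⟨h2, h5, h6⟩
    · rw [List.map_map]
      rw [hX, hLm] at hc
      exact hSle.trans hc
  have hcond : (TH2.NU.condM (K + M) : ℝ) = TH2.NU.condM K + TH2.NU.condM M := by
    rw [TH2.NU.condM_add, Nat.cast_add]
  -- the estimates
  have hXval : ∀ n : ℕ, X n = ((n : ℝ) + 1) * (n + 2) -
      (K.map fun m : ℕ => (m : ℝ) * (m + 1)).sum := fun n => by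
    rw [hX, ← two_condM, ← card_zero_real]
  have hXlo : ∀ n : ℕ, d ≤ n → η * (n : ℝ) ^ 2 ≤ X n := fun n hn => by
    have h1 : (d : ℝ) ≤ n := by exact_mod_cast hn
    have h2 : (d : ℝ) ^ 2 ≤ (n : ℝ) ^ 2 := pow_le_pow_left₀ (Nat.cast_nonneg _) h1 2
    have h3 : (1 - η) * (d : ℝ) ^ 2 ≤ (1 - η) * (n : ℝ) ^ 2 :=
      mul_le_mul_of_nonneg_left h2 (by linarith)
    have h4 : (0 : ℝ) ≤ n := Nat.cast_nonneg _
    rw [hXval]
    nlinarith
  have hLmeq : ∀ n : ℕ, Lm n * (16 * G) = 7 * (n : ℝ) ^ 2 := fun n => by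
    rw [hLm]
    exact div_mul_cancel₀ _ (by positivity)
  have hLm0 : ∀ n : ℕ, 0 ≤ Lm n := fun n => by
    rw [hLm]
    positivity
  have hLmhi : ∀ n : ℕ, Lm n ≤ η * (n : ℝ) ^ 2 / 2 := fun n => by
    rw [hLm]
    simp only
    rw [div_le_div_iff₀ (by positivity) (by norm_num)]
    have h1 : 8192 ≤ η * G := by linarith
    have h2 : 8192 * (n : ℝ) ^ 2 ≤ η * G * (n : ℝ) ^ 2 :=
      mul_le_mul_of_nonneg_right h1 (sq_nonneg _)
    have h3 : (0 : ℝ) ≤ (n : ℝ) ^ 2 := sq_nonneg _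
    nlinarith
  obtain ⟨ζ, hζ⟩ : ∃ ζ : ℝ, ζ = (A + Z) / (32 * h) := ⟨_, rfl⟩
  have hζeq : ζ * (32 * h) = A + Z := by
    rw [hζ]
    exact div_mul_cancel₀ _ (by positivity)
  have hsmall : ∀ n : ℕ, d ≤ n → X n - Lm n < A + Z → Lm n + 2 * ((n : ℝ) + 2) ≤ ζ := by
    intro n hn hc
    have h1 := hXlo n hn
    have h2 := hLmhi n
    have h3 : (d : ℝ) ≤ n := by exact_mod_cast hn
    have h4 : 116 * G ≤ n := hdG.trans h3
    have h5 : (0 : ℝ) ≤ n := Nat.cast_nonneg _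
    have h6 : 2 * ((n : ℝ) + 2) ≤ 3 * n := by linarith
    have h7 : η * (n : ℝ) ^ 2 / 2 ≤ A + Z := by linarith
    have h8 : 116 * G * (n : ℝ) ≤ n * n := mul_le_mul_of_nonneg_right h4 h5
    -- `(Lm n + 3 n) G ≤ (15 / 32) n ^ 2`
    have h9 : (Lm n + 3 * n) * G ≤ 15 / 32 * (n : ℝ) ^ 2 := by
      have := hLmeq n
      nlinarith
    have h10 : (Lm n + 3 * n) * (η * G) ≤ 15 / 32 * (2 * (A + Z)) := by
      have e1 : (Lm n + 3 * n) * G * η ≤ 15 / 32 * (n : ℝ) ^ 2 * η :=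
        mul_le_mul_of_nonneg_right h9 hη.le
      nlinarith
    have h11 : (Lm n + 3 * n) * (32 * h) ≤ (Lm n + 3 * n) * (η * G) :=
      mul_le_mul_of_nonneg_left hG (by have := hLm0 n; linarith)
    have h12 : (Lm n + 3 * n) * (32 * h) ≤ ζ * (32 * h) := by
      rw [hζeq]
      have : 0 ≤ A + Z := by linarith
      linarith
    have h13 : Lm n + 3 * n ≤ ζ := le_of_mul_le_mul_right h12 (by positivity)
    linarith
  rw [← hζ]
  by_cases c1 : X d + Lm d ≤ A - Z
  · left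
    exact crkM_zero (toolE d le_rfl c1)
  right
  by_cases c2 : A + Z ≤ X d - Lm d
  · left
    exact crkM_sur (toolS d le_rfl c2)
  right
  push Not at c1 c2
  have hXd : X d = 2 * ((HX 0 0 0 d).card : ℝ) - 2 * (TH2.NU.condM K : ℝ) := by rw [hX]
  constructor
  · have h1 := hsmall d le_rfl c2
    have h2 : (0 : ℝ) ≤ d := Nat.cast_nonneg _
    rw [hcond, mul_add, ← hA]
    linarith
  -- a large degree which is good
  have hex : ∃ n : ℕ, A + Z ≤ X (d + n) - Lm (d + n) := by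
    obtain ⟨n, hn⟩ := exists_nat_ge (max 1 (2 * (A + Z) / η))
    refine ⟨n, ?_⟩
    have e1 := hXlo (d + n) (Nat.le_add_right d n)
    have e2 := hLmhi (d + n)
    have e3 : (1 : ℝ) ≤ n := (le_max_left _ _).trans hn
    have e4 : 2 * (A + Z) / η ≤ n := (le_max_right _ _).trans hn
    rw [div_le_iff₀ hη] at e4
    have e5 : (n : ℝ) ≤ ((d + n : ℕ) : ℝ) := by
      push_cast
      have : (0 : ℝ) ≤ d := Nat.cast_nonneg _
      linarith
    have e6 : (n : ℝ) ≤ ((d + n : ℕ) : ℝ) ^ 2 := by nlinarith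
    have e7 : (n : ℝ) * η ≤ ((d + n : ℕ) : ℝ) ^ 2 * η := mul_le_mul_of_nonneg_right e6 hη.le
    linarith
  classical
  obtain ⟨n0, hn0, hmin⟩ : ∃ n0 : ℕ, A + Z ≤ X (d + n0) - Lm (d + n0) ∧
      ∀ m < n0, ¬ (A + Z ≤ X (d + m) - Lm (d + m)) :=
    ⟨Nat.find hex, Nat.find_spec hex, fun m hm => Nat.find_min hex hm⟩
  have hn0pos : n0 ≠ 0 := by
    intro h0
    rw [h0, Nat.add_zero] at hn0
    linarith
  obtain ⟨k, rfl⟩ := Nat.exists_eq_succ_of_ne_zero hn0pos
  have hk := hmin k (Nat.lt_succ_self k)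
  push Not at hk
  obtain ⟨e, he⟩ : ∃ e : ℕ, e = d + k := ⟨_, rfl⟩
  have hde : d ≤ e := by omega
  rw [← he] at hk
  have he1 : d + k.succ = e + 1 := by omega
  rw [he1] at hn0
  have hsur := toolS (e + 1) (by omega) hn0
  have h1 := crkM_sur hsur
  have h2 := crkM_mono (HX_mono (M1 := 0) (M2 := 0) (M3 := 0) (show d ≤ e + 1 by omega)) (K + M)
  have h3 : ((crkM (HX 0 0 0 d) (K + M) : ℕ) : ℝ) + (TH2.NU.condM (K + M) : ℝ) ≤
      ((HX 0 0 0 (e + 1)).card : ℝ) := by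
    exact_mod_cast (Nat.add_le_add_right h2 _).trans h1
  have h4 := hsmall e hde hk
  have h5 := hXval e
  have h6 := card_zero_real (e + 1)
  have h7 := two_condM K
  push_cast at h6
  rw [hcond] at h3
  nlinarith

end Pool.Agent.Q285.PK
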