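import Pool.Agent.H200P.Stm

/-! # Project PK (helper200): jobs BOXS, BOXE -/

set_option autoImplicit false

namespace Pool.Agent.Q285.PK

open Finset Pool.Agent.TH176.Nag Pool.Agent.TH603.Sur Pool.Agent.TH2.NU Pool.Agent.TH641.UM
open Pool.Agent.Y205.FW Pool.Agent.Y205.MD Pool.Agent.H200W Pool.Agent.H200P

theorem pair_eq (M M' : ℕ) : ({M, M'} : Multiset ℕ) = {M'} + ({M} + 0) := by
  rw [add_zero, Multiset.insert_eq_cons, ← Multiset.singleton_add, add_comm]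

theorem boxS : S_BoxS := by
  intro hT h u G w b M M' hh hG hu huG hGb hMb hMb' hMw hMw'
  obtain ⟨m, hm⟩ : ∃ m : ℝ, m = (M : ℝ) := ⟨_, rfl⟩
  obtain ⟨m', hm'⟩ : ∃ m' : ℝ, m' = (M' : ℝ) := ⟨_, rfl⟩
  have m0 : 0 ≤ m := by rw [hm]; positivity
  have m0' : 0 ≤ m' := by rw [hm']; positivity
  rw [← hm] at hMb hMw
  rw [← hm'] at hMb' hMw'
  obtain ⟨d, hd⟩ : ∃ d : ℤ, d = ⌈w⌉ + ⌈b⌉ - M' - 1 := ⟨_, rfl⟩
  obtain ⟨δ, hδ⟩ : ∃ δ : ℝ, δ = (d : ℝ) := ⟨_, rfl⟩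
  have c1 := Int.le_ceil w
  have c2 := Int.le_ceil b
  have hδ2 : δ = (⌈w⌉ : ℝ) + ⌈b⌉ - m' - 1 := by
    rw [hδ, hd, hm']; push_cast; ring
  have hG0 : 0 < G := by linarith
  have hδw : w + b - m' - 1 ≤ δ := by linarith
  have k := p_stackS (h := h) (u := u) (G := G) (M := m + 1) (q := w) (d := δ)
    (y0 := 0) (y1 := b) hh hG hu huG (by linarith)
    (by
      unfold rl
      rw [min_eq_left (by linarith), max_eq_right (by linarith)]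
      linarith)
    (by
      unfold rl
      rw [max_eq_left (by linarith : m + 1 - b ≤ 0), sub_zero]
      exact le_min (by linarith) (by linarith))
  have hga : 2 * w * b - (m + 1) ^ 2 - (m' + 1) ^ 2 - 6 * b ≤
      ga (m + 1) w δ b - ga (m + 1) w δ 0 - 6 * (b - 0) := by
    unfold ga
    rw [max_eq_left (by linarith : m + 1 - b ≤ 0), max_eq_left (by linarith : 0 - (δ - w) ≤ 0),
      max_eq_right (by linarith : 0 ≤ m + 1 - 0)]
    have h1 : max 0 (b - (δ - w)) ≤ m' + 1 := max_le (by linarith) (by linarith)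
    have h2 : (max 0 (b - (δ - w))) ^ 2 ≤ (m' + 1) ^ 2 :=
      pow_le_pow_left₀ (le_max_left _ _) h1 2
    linarith
  rw [← hm, ← hm', pair_eq]
  have k0 : GoodSK 0 h u (ZO (m + 1) w δ 0 b)
      (2 * w * b - (m + 1) ^ 2 - (m' + 1) ^ 2 - 6 * b) := (GoodS.toK k).mono hga fun _ hS => hS
  have k1 : GoodSK ({M} + 0) h u ({p | p ∈ BO w b ∧ p.1 + p.2 < d})
      (2 * w * b - (m + 1) ^ 2 - (m' + 1) ^ 2 - 6 * b) := by
    refine k0.union fun N hN => ?_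
    refine p_cutS 1 1 (m + 1) ?_ ?_ (hT M 0 0).1 hN
    · rintro p ⟨a1, a2, a3⟩
      have b1 : (0 : ℝ) < p.1 := by exact_mod_cast a1
      have b2 : (0 : ℝ) < p.2 := by exact_mod_cast a2
      have b3 : (p.1 : ℝ) + p.2 ≤ m + 1 := by rw [hm]; exact_mod_cast a3
      refine ⟨⟨⟨a1, a2, by linarith, by linarith⟩, ?_⟩, by linarith⟩
      have b4 : (p.1 : ℝ) + p.2 < (d : ℝ) := by rw [← hδ]; linarith
      exact_mod_cast b4
    · rintro p ⟨a1, a2, a3, a4, a5, a6⟩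
      refine ⟨⟨⟨a3, by exact_mod_cast a1, a5, a2⟩, ?_⟩, by linarith⟩
      have b4 : (p.1 : ℝ) + p.2 < (d : ℝ) := by rw [← hδ]; linarith
      exact_mod_cast b4
  refine k1.union fun N hN => ?_
  rw [add_comm]
  refine p_cutS 1 1 (δ - 1 / 2) ?_ ?_ hN (hT M' (⌈w⌉ - 1) (⌈b⌉ - 1)).2.1
  · rintro p ⟨a1, a2⟩
    refine ⟨a1, ?_⟩
    have a3 : p.1 + p.2 ≤ d - 1 := by omega
    have b1 : (p.1 : ℝ) + p.2 ≤ (d : ℝ) - 1 := by exact_mod_cast a3
    rw [← hδ] at b1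
    linarith
  · rintro p ⟨a1, a2, a3⟩
    have e1 : (p.1 : ℝ) < w := Int.lt_ceil.1 (by omega)
    have e2 : (p.2 : ℝ) < b := Int.lt_ceil.1 (by omega)
    have b1 : (p.1 : ℝ) ≤ ⌈w⌉ - 1 := by exact_mod_cast a1
    have b2 : (p.2 : ℝ) ≤ ⌈b⌉ - 1 := by exact_mod_cast a2
    have b3 : (⌈w⌉ : ℝ) - 1 + (⌈b⌉ - 1) - m' < p.1 + p.2 := by rw [hm']; exact_mod_cast a3
    have e3 : (0 : ℝ) < p.1 := by linarith
    have e4 : (0 : ℝ) < p.2 := by linarith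
    refine ⟨⟨by exact_mod_cast e3, by exact_mod_cast e4, e1, e2⟩, ?_⟩
    have a4 : d ≤ p.1 + p.2 := by omega
    have b4 : (d : ℝ) ≤ p.1 + p.2 := by exact_mod_cast a4
    rw [← hδ] at b4
    linarith

theorem boxE : S_BoxE := by
  intro hT h u G w b M M' hh hG hu huG hGb hMb hMb' hMw hMw'
  obtain ⟨m, hm⟩ : ∃ m : ℝ, m = (M : ℝ) := ⟨_, rfl⟩
  obtain ⟨m', hm'⟩ : ∃ m' : ℝ, m' = (M' : ℝ) := ⟨_, rfl⟩
  have m0 : 0 ≤ m := by rw [hm]; positivity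
  have m0' : 0 ≤ m' := by rw [hm']; positivity
  rw [← hm] at hMb hMw
  rw [← hm'] at hMb' hMw'
  obtain ⟨d, hd⟩ : ∃ d : ℤ, d = ⌊w⌋ + ⌊b⌋ - M' := ⟨_, rfl⟩
  obtain ⟨δ, hδ⟩ : ∃ δ : ℝ, δ = (d : ℝ) := ⟨_, rfl⟩
  have c1 := Int.floor_le w
  have c2 := Int.floor_le b
  have c3 := Int.lt_floor_add_one w
  have c4 := Int.lt_floor_add_one b
  have hδ2 : δ = (⌊w⌋ : ℝ) + ⌊b⌋ - m' := by
    rw [hδ, hd, hm']; push_cast; ring
  have hG0 : 0 < G := by linarith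
  have hδw : w + b - m' - 2 ≤ δ := by linarith
  have hδw' : δ ≤ w + b - m' := by linarith
  have k := p_stackE (h := h) (u := u) (G := G) (M := m) (q := w) (d := δ)
    (y0 := 0) (y1 := b) hh hG hu huG (by linarith)
    (by
      unfold rl
      rw [min_eq_left (by linarith), max_eq_right (by linarith)]
      linarith)
    (by
      unfold rl
      rw [max_eq_left (by linarith : m - b ≤ 0), sub_zero]
      exact le_min (by linarith) (by linarith))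
  have hga : ga m w δ b - ga m w δ 0 ≤ 2 * w * b - m ^ 2 - m' ^ 2 := by
    unfold ga
    rw [max_eq_left (by linarith : m - b ≤ 0), max_eq_left (by linarith : 0 - (δ - w) ≤ 0),
      max_eq_right (by linarith : 0 ≤ m - 0)]
    have h1 : m' ≤ max 0 (b - (δ - w)) := le_max_of_le_right (by linarith)
    have h2 : m' ^ 2 ≤ (max 0 (b - (δ - w))) ^ 2 := pow_le_pow_left₀ m0' h1 2
    linarith
  rw [← hm, ← hm', pair_eq]
  have hfin : (BC w b).Finite := by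
    refine ((Set.finite_Icc (0 : ℤ) ⌊w⌋).prod (Set.finite_Icc (0 : ℤ) ⌊b⌋)).subset ?_
    rintro p ⟨a1, a2, a3, a4⟩
    exact ⟨⟨a1, Int.le_floor.2 a3⟩, ⟨a2, Int.le_floor.2 a4⟩⟩
  have k0 : GoodEK 0 h u (ZC m w δ 0 b) (2 * w * b - m ^ 2 - m' ^ 2) :=
    (GoodE.toK k).mono hga fun _ hS => hS
  have k1 : GoodEK ({M} + 0) h u ({p | p ∈ BC w b ∧ p.1 + p.2 ≤ d})
      (2 * w * b - m ^ 2 - m' ^ 2) := by
    refine k0.union fun N hN => ?_
    refine p_cutE 1 1 (m - 1 / 2) (hfin.subset fun p hp => hp.1) ?_ (hT M 0 0).2.2.1 hN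
    rintro p ⟨⟨a1, a2, a3, a4⟩, a5⟩
    have b5 : (p.1 : ℝ) + p.2 ≤ (d : ℝ) := by exact_mod_cast a5
    rw [← hδ] at b5
    have b2 : (0 : ℝ) ≤ p.2 := by exact_mod_cast a2
    rcases lt_or_ge (p.1 + p.2) (M : ℤ) with hp | hp
    · left
      have a6 : p.1 + p.2 ≤ (M : ℤ) - 1 := by omega
      have b6 : (p.1 : ℝ) + p.2 ≤ m - 1 := by rw [hm]; exact_mod_cast a6
      exact ⟨⟨a1, a2, hp⟩, by linarith⟩
    · right
      have b6 : m ≤ (p.1 : ℝ) + p.2 := by rw [hm]; exact_mod_cast hp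
      exact ⟨⟨b2, a4, a1, by linarith, a3, by linarith⟩, by linarith⟩
  refine k1.union fun N hN => ?_
  rw [add_comm]
  refine p_cutE 1 1 δ hfin ?_ hN (hT M' ⌊w⌋ ⌊b⌋).2.2.2
  rintro p ⟨a1, a2, a3, a4⟩
  rcases le_or_gt (p.1 + p.2) d with hp | hp
  · left
    have b1 : (p.1 : ℝ) + p.2 ≤ (d : ℝ) := by exact_mod_cast hp
    rw [← hδ] at b1
    exact ⟨⟨⟨a1, a2, a3, a4⟩, hp⟩, by linarith⟩
  · right
    have b1 : (d : ℝ) < (p.1 : ℝ) + p.2 := by exact_mod_cast hp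
    rw [← hδ] at b1
    exact ⟨⟨Int.le_floor.2 a3, Int.le_floor.2 a4, by omega⟩, by linarith⟩

end Pool.Agent.Q285.PK
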