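import Pool.Agent.H200P.Stm

/-! # Project PK (helper200): job TRIE -/

set_option autoImplicit false

namespace Pool.Agent.Q285.PK

open Finset Pool.Agent.TH176.Nag Pool.Agent.TH603.Sur Pool.Agent.TH2.NU Pool.Agent.TH641.UM
open Pool.Agent.Y205.FW Pool.Agent.Y205.MD Pool.Agent.H200W Pool.Agent.H200P

theorem ht_nonneg {G : ℝ} (hG : 0 ≤ G) (p : ℕ × ℕ) : 0 ≤ ht G p := by
  unfold ht
  have h1 : (0 : ℝ) ≤ max (p.1 : ℝ) (p.2 : ℝ) := le_max_of_le_left (Nat.cast_nonneg _)
  linarith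

theorem sum_ht_nonneg {G : ℝ} (hG : 0 ≤ G) (B : List (ℕ × ℕ)) : 0 ≤ (B.map (ht G)).sum := by
  refine List.sum_nonneg fun x hx => ?_
  obtain ⟨p, _, rfl⟩ := List.mem_map.1 hx
  exact ht_nonneg hG p

/-- the area of the pairs is at most twice the width times the sum of the heights -/
theorem sq0_le {G W : ℝ} (hG : 0 ≤ G) (hW : 0 ≤ W) : ∀ B : List (ℕ × ℕ),
    (∀ p ∈ B, (p.1 : ℝ) ≤ W ∧ (p.2 : ℝ) ≤ W) → sq0 B ≤ 2 * W * (B.map (ht G)).sum := by
  intro B
  induction B with
  | nil => intro _; simp [sq0]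
  | cons p B ih =>
    intro hB
    have h1 := ih fun q hq => hB q (List.mem_cons_of_mem _ hq)
    obtain ⟨h2, h3⟩ := hB p List.mem_cons_self
    unfold sq0 at h1 ⊢
    rw [List.map_cons, List.sum_cons, List.map_cons, List.sum_cons, mul_add]
    have h4 : (p.1 : ℝ) ≤ ht G p := by
      unfold ht
      have := le_max_left (p.1 : ℝ) (p.2 : ℝ)
      linarith
    have h5 : (p.2 : ℝ) ≤ ht G p := by
      unfold ht
      have := le_max_right (p.1 : ℝ) (p.2 : ℝ)
      linarith
    have h6 : (p.1 : ℝ) ^ 2 ≤ W * ht G p := by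
      rw [pow_two]
      exact mul_le_mul h2 h4 (Nat.cast_nonneg _) hW
    have h7 : (p.2 : ℝ) ^ 2 ≤ W * ht G p := by
      rw [pow_two]
      exact mul_le_mul h3 h5 (Nat.cast_nonneg _) hW
    linarith

theorem dc_finite (D : ℝ) : (DC D).Finite := by
  refine ((Set.finite_Icc (0 : ℤ) ⌊D⌋).prod (Set.finite_Icc (0 : ℤ) ⌊D⌋)).subset ?_
  rintro p ⟨a1, a2, a3⟩
  have b1 : (0 : ℝ) ≤ p.1 := by exact_mod_cast a1
  have b2 : (0 : ℝ) ≤ p.2 := by exact_mod_cast a2
  exact ⟨⟨a1, Int.le_floor.2 (by linarith)⟩, ⟨a2, Int.le_floor.2 (by linarith)⟩⟩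

theorem triE : S_TriE := by
  intro hslab hfit h u G hh hG hu huG L
  have hG0 : 0 < G := by linarith
  induction L with
  | nil =>
    intro D hD
    have hD' : 2 * G ≤ D := hD
    have k := GoodE.toK (topE (h := h) (u := u) (b := D) (t := 0) hh (by linarith))
    refine k.mono ?_ fun N hN => Emp.mono hN ?_
    · simp [sqT0]
    · rintro p ⟨a1, a2, a3⟩
      exact ⟨by exact_mod_cast a2, a1, by linarith⟩
  | cons x L ih =>
    obtain ⟨W, B⟩ := x
    intro D hD
    obtain ⟨f1, f2, f3, f4⟩ : 15 * G ≤ W ∧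
      (∀ p ∈ B, (p.1 : ℝ) + 2 + 13 * G ≤ W ∧ (p.2 : ℝ) + 2 + 13 * G ≤ W) ∧
      W + G + (B.map (ht G)).sum + 2 * G ≤ D ∧ FitT G (D - (W + G)) L := hD
    have hs0 := sum_ht_nonneg hG0.le B
    have hW0 : 0 ≤ W := by linarith
    have hsq := sq0_le hG0.le hW0 B fun p hp => by
      obtain ⟨g1, g2⟩ := f2 p hp
      exact ⟨by linarith, by linarith⟩
    have epm : pmT ((W, B) :: L) = pm B + pmT L := by
      unfold pmT
      rw [List.map_cons, List.sum_cons]
    have esq : sqT0 ((W, B) :: L) = sq0 B + sqT0 L := by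
      unfold sqT0
      rw [List.map_cons, List.sum_cons]
    rw [epm, esq]
    have hfitt : ∀ t ∈ Set.Icc W (W + G), FitT G (D - t) L := fun t ht =>
      (hfit hG0 L (D - (W + G)) (D - t) f4).1 (by linarith [ht.2])
    refine divKE (t0 := W) (t1 := W + G) (fun t => QC t D)
      (fun t => {p : ℤ × ℤ | t < (p.1 : ℝ) ∧ p ∈ DC D})
      (fun t => 2 * t * D - t ^ 2 - sq0 B) (fun t => (D - t) ^ 2 - sqT0 L) (by linarith)
      ?_ ?_ ?_ hu ?_ ?_ ?_ ?_ ?_
    · fun_prop
    · have h1 : 2 * W * (B.map (ht G)).sum ≤ 2 * W * (D - W) :=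
        mul_le_mul_of_nonneg_left (by linarith) (by linarith)
      nlinarith
    · nlinarith
    · intro t _
      ring_nf
      exact le_refl _
    · intro t ht
      have h1 := (hfit hG0 L (D - t) (D - t) (hfitt t ht)).2.2.1
      linarith
    · intro t ht
      have h1 := ht.1
      have h2 := ht.2
      exact hslab hh hG hu huG B t D (by linarith) (fun p hp => by
        obtain ⟨g1, g2⟩ := f2 p hp
        exact ⟨by linarith, by linarith⟩) (by linarith)
    · intro t ht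
      refine (ih (D - t) (hfitt t ht)).mono (le_refl _) fun N hN => ?_
      refine Emp.comap hN 1 0 0 1 (-(⌊t⌋ + 1)) 0 (by norm_num) ?_
      rintro ⟨x, y⟩ ⟨a1, a2, a3, a4⟩
      simp only at a1 a2 a3 a4
      have e1 : ⌊t⌋ < x := Int.floor_lt.2 a1
      have e2 := Int.lt_floor_add_one t
      refine ⟨?_, ?_, ?_⟩
      · simp only
        omega
      · simp only
        omega
      · simp only
        push_cast
        linarith
    · intro t ht N1 N2 hN1 hN2
      refine p_cutE 1 0 t (dc_finite D) ?_ hN1 hN2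
      rintro p ⟨a1, a2, a3⟩
      rcases le_or_gt (p.1 : ℝ) t with hp | hp
      · left
        exact ⟨⟨a1, a2, hp, a3⟩, by linarith⟩
      · right
        exact ⟨⟨hp, a1, a2, a3⟩, by linarith⟩

end Pool.Agent.Q285.PK
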