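import Pool.Agent.H200P.Stm2
import Pool.Agent.Q285.PK.Leaf

/-! # Job PK-WIN of helper200's project: the two windows, with large multiplicities. -/

set_option autoImplicit false

namespace Pool.Agent.Q285.PK

open Finset Pool.Agent.TH176.Nag Pool.Agent.TH603.Sur Pool.Agent.TH2.NU Pool.Agent.TH641.UM
open Pool.Agent.Y205.FW Pool.Agent.Y205.MD Pool.Agent.H200W Pool.Agent.H200P

theorem sq1_pm (B : List (ℕ × ℕ)) : sq1 B = ((pm B).map fun m : ℕ => ((m : ℝ) + 1) ^ 2).sum := by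
  induction B with
  | nil => simp [sq1, pm]
  | cons p B ih =>
    unfold sq1 pm at ih ⊢
    rw [List.map_cons, List.sum_cons, List.map_cons, List.sum_cons, Multiset.map_add,
      Multiset.sum_add, ← ih]
    simp

theorem sq0_pm (B : List (ℕ × ℕ)) : sq0 B = ((pm B).map fun m : ℕ => (m : ℝ) ^ 2).sum := by
  induction B with
  | nil => simp [sq0, pm]
  | cons p B ih =>
    unfold sq0 pm at ih ⊢
    rw [List.map_cons, List.sum_cons, List.map_cons, List.sum_cons, Multiset.map_add,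
      Multiset.sum_add, ← ih]
    simp

theorem sqT1_pmT (L : List (ℝ × List (ℕ × ℕ))) :
    sqT1 L = ((pmT L).map fun m : ℕ => ((m : ℝ) + 1) ^ 2).sum := by
  induction L with
  | nil => simp [sqT1, pmT]
  | cons p L ih =>
    unfold sqT1 pmT at ih ⊢
    rw [List.map_cons, List.sum_cons, List.map_cons, List.sum_cons, Multiset.map_add,
      Multiset.sum_add, ← ih, sq1_pm]

theorem sqT0_pmT (L : List (ℝ × List (ℕ × ℕ))) :
    sqT0 L = ((pmT L).map fun m : ℕ => (m : ℝ) ^ 2).sum := by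
  induction L with
  | nil => simp [sqT0, pmT]
  | cons p L ih =>
    unfold sqT0 pmT at ih ⊢
    rw [List.map_cons, List.sum_cons, List.map_cons, List.sum_cons, Multiset.map_add,
      Multiset.sum_add, ← ih, sq0_pm]

theorem sum_sq1 (K : Multiset ℕ) : (K.map fun m : ℕ => ((m : ℝ) + 1) ^ 2).sum =
    2 * (TH2.NU.condM K : ℝ) + (K.map fun m : ℕ => (m : ℝ) + 1).sum := by
  rw [two_condM]
  induction K using Multiset.induction_on with
  | empty => simp
  | cons m K ih =>
    simp only [Multiset.map_cons, Multiset.sum_cons]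
    rw [ih]
    ring

theorem sum_sq0 (K : Multiset ℕ) : 2 * (TH2.NU.condM K : ℝ) ≤
    (K.map fun m : ℕ => (m : ℝ) ^ 2).sum + (K.map fun m : ℕ => (m : ℝ) + 1).sum := by
  rw [two_condM]
  induction K using Multiset.induction_on with
  | empty => simp
  | cons m K ih =>
    simp only [Multiset.map_cons, Multiset.sum_cons]
    linarith

theorem sum_lin (K : Multiset ℕ) {G : ℝ} (hG : 1 ≤ G) :
    32 * G * (K.map fun m : ℕ => (m : ℝ) + 1).sum ≤
      (K.map fun m : ℕ => ((m : ℝ) + 16 * G) ^ 2).sum := by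
  induction K using Multiset.induction_on with
  | empty => simp
  | cons m K ih =>
    simp only [Multiset.map_cons, Multiset.sum_cons]
    have h1 : 32 * G * ((m : ℝ) + 1) ≤ ((m : ℝ) + 16 * G) ^ 2 := by
      have : (0 : ℝ) ≤ (m : ℝ) ^ 2 := sq_nonneg _
      nlinarith
    rw [mul_add]
    exact add_le_add h1 ih

theorem winK : S_WinK := by
  intro hTS hTE hP hF hZ h G d m1 K hh hG hd hm hp e hde
  have hG1 : 1 ≤ G := by linarith
  have hd1 : (1 : ℝ) ≤ d := by exact_mod_cast hd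
  have hdeR : (d : ℝ) ≤ e := by exact_mod_cast hde
  obtain ⟨L, hfit, hK'⟩ := hP (G := G) (D := (d : ℝ)) K hG1 (by linarith) hm hp
  have hdG : 116 * G ≤ d := deg_large hd hp
  have f1 := hF (by linarith : 0 < G) L d e hfit
  have f2 := hF (by linarith : 0 < G) L d ((e : ℝ) + 3) hfit
  have fite : FitT G (e : ℝ) L := f1.1 hdeR
  have fite3 : FitT G ((e : ℝ) + 3) L := f2.1 (by linarith)
  have hr := f1.2.1
  have hu : 1024 * h ^ 2 ≤ G ^ 2 := by
    have : (32 * h) ^ 2 ≤ G ^ 2 := pow_le_pow_left₀ (by linarith) hG 2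
    nlinarith
  have kS := hTS (u := 1024 * h ^ 2) hh (by linarith : 5 * h ≤ G) (by positivity) hu L _ fite3
  have kE := hTE (u := 1024 * h ^ 2) hh (by linarith : 5 * h ≤ G) (by positivity) hu L _ fite
  -- the sums
  obtain ⟨σ, hσ⟩ : ∃ σ : ℝ, σ = (K.map fun m : ℕ => (m : ℝ) + 1).sum := ⟨_, rfl⟩
  have hσd : 32 * G * σ ≤ (e : ℝ) ^ 2 := by
    have h1 := sum_lin K hG1
    rw [← hσ] at h1
    have h2 : (0 : ℝ) ≤ m1 := Nat.cast_nonneg _
    have h3 : 0 ≤ (7 * m1 + 116 * G) * (d : ℝ) := by positivity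
    have h4 : (d : ℝ) ^ 2 ≤ (e : ℝ) ^ 2 := pow_le_pow_left₀ (by linarith) hdeR 2
    linarith
  have hs1 : sqT1 L ≤ 2 * (TH2.NU.condM K : ℝ) + σ + 1 := by
    rw [sqT1_pmT, hσ, ← sum_sq1]
    rcases hK' with hK' | hK'
    · rw [hK']; linarith
    · rw [hK', Multiset.map_add, Multiset.sum_add]; simp
  have hs0 : 2 * (TH2.NU.condM K : ℝ) ≤ sqT0 L + σ := by
    rw [sqT0_pmT, hσ]
    have h1 := sum_sq0 K
    rcases hK' with hK' | hK'
    · rw [hK']; exact h1
    · rw [hK', Multiset.map_add, Multiset.sum_add]; simpa using h1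
  have hcard := card_zero_real e
  obtain ⟨Lm, hLm⟩ : ∃ Lm : ℝ, Lm = 7 * (e : ℝ) ^ 2 / (16 * G) := ⟨_, rfl⟩
  have hLmeq : Lm * (16 * G) = 7 * (e : ℝ) ^ 2 := by
    rw [hLm]
    exact div_mul_cancel₀ _ (by positivity)
  rw [← hLm]
  have he0 : (0 : ℝ) ≤ e := Nat.cast_nonneg _
  have hpull : ∀ A : Multiset ℕ, K + {0} + A = K + A + {0} := fun A => add_right_comm _ _ _
  constructor
  · have hα : 2 * ((HX 0 0 0 e).card : ℝ) - 2 * (TH2.NU.condM K : ℝ) - Lm ≤
        ((e : ℝ) + 3) ^ 2 - sqT1 L - (6 * L.length + 1) * ((e : ℝ) + 3) := by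
      have h1 : (16 * G) * (σ + 1 + (6 * L.length + 1) * ((e : ℝ) + 3)) ≤
          (16 * G) * (Lm + 3 * e + 7) := by
        have h2 : 16 * G * (L.length : ℝ) * (e + 3) ≤ e * (e + 3) :=
          mul_le_mul_of_nonneg_right (hr.trans hdeR) (by linarith)
        have h3 : 32 * e ≤ G * e := mul_le_mul_of_nonneg_right (by linarith) he0
        nlinarith
      have h4 := le_of_mul_le_mul_left h1 (by positivity)
      rw [hcard]
      nlinarith
    have kS' := kS.mono (T := (↑(HX 0 0 0 e) : Set (ℤ × ℤ))) hα fun M hM => by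
      refine Sur.shift hM 1 1 ?_
      rintro ⟨x, y⟩ ⟨a1, a2, a3⟩
      simp only at a1 a2 a3
      rw [mem_coe, HX, mem_filter, mem_product, mem_Icc, mem_Icc]
      have b3 : x + y < (e : ℤ) + 3 := by exact_mod_cast a3
      simp only [Nat.cast_zero]
      omega
    rcases hK' with hK' | hK'
    · rw [hK'] at kS'
      exact kS'
    · rw [hK'] at kS'
      refine ⟨(hZ _ _).1 kS'.1, fun L1 h1 h2 => (hZ _ _).1 ?_⟩
      rw [← hpull]
      exact kS'.2 L1 h1 h2
  · have hα : (e : ℝ) ^ 2 - sqT0 L ≤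
        2 * ((HX 0 0 0 e).card : ℝ) - 2 * (TH2.NU.condM K : ℝ) + Lm := by
      have h1 : (16 * G) * σ ≤ (16 * G) * Lm := by nlinarith
      have h4 := le_of_mul_le_mul_left h1 (by positivity)
      rw [hcard]
      nlinarith
    have kE' := kE.mono (T := (↑(HX 0 0 0 e) : Set (ℤ × ℤ))) hα fun M hM => by
      refine Emp.mono hM ?_
      rintro ⟨x, y⟩ hxy
      rw [mem_coe, HX, mem_filter, mem_product, mem_Icc, mem_Icc] at hxy
      simp only [Nat.cast_zero] at hxy
      obtain ⟨⟨⟨b1, b2⟩, b3, b4⟩, b5, b6⟩ := hxy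
      refine ⟨b1, b3, ?_⟩
      exact_mod_cast b5
    rcases hK' with hK' | hK'
    · rw [hK'] at kE'
      exact kE'
    · rw [hK'] at kE'
      intro L1 h1 h2
      refine (hZ _ _).2 ?_
      rw [← hpull]
      exact kE' L1 h1 h2

end Pool.Agent.Q285.PK
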